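import Mathlib

set_option autoImplicit false

/-!
MP_e00c87_al: definitions. Classes of finite groups, saturated formations, minimal non-F-groups,
the F-residual, and the projective special unitary group of degree 3.
-/

namespace Pool.Agent.Helper6.BKU

/-- A class `F` of finite groups is a saturated formation: it is invariant under isomorphism,
closed under quotients, contains `H / (M ∩ N)` with `H / M` and `H / N`, and contains `H` with
`H / Φ(H)`. -/
structure IsSaturatedFormation (F : ∀ (H : Type) [Group H] [Finite H], Prop) : Prop where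
  iso : ∀ (H K : Type) [Group H] [Finite H] [Group K] [Finite K], Nonempty (H ≃* K) → F H → F K
  quotient : ∀ (H : Type) [Group H] [Finite H] (N : Subgroup H) [N.Normal], F H → F (H ⧸ N)
  inter : ∀ (H : Type) [Group H] [Finite H] (M N : Subgroup H) [M.Normal] [N.Normal],
    F (H ⧸ M) → F (H ⧸ N) → F (H ⧸ (M ⊓ N))
  saturated : ∀ (H : Type) [Group H] [Finite H], F (H ⧸ frattini H) → F H

/-- `G` is a minimal non-`F`-group. -/
def IsMinimalNon (F : ∀ (H : Type) [Group H] [Finite H], Prop) (G : Type) [Group G] [Finite G] :
    Prop :=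
  ¬ F G ∧ ∀ K : Subgroup G, K ≠ ⊤ → F K

/-- `R` is the `F`-residual of `G`: the least normal subgroup whose quotient lies in `F`. -/
def IsResidual (F : ∀ (H : Type) [Group H] [Finite H], Prop) {G : Type} [Group G] [Finite G]
    (R : Subgroup G) : Prop :=
  IsLeast {N : Subgroup G | ∃ _ : N.Normal, F (G ⧸ N)} R

/-- The group `R` is isomorphic to a quotient group of the group `S`. -/
def IsQuotientOf (R S : Type) [Group R] [Group S] : Prop :=
  ∃ (N : Subgroup S) (_ : N.Normal), Nonempty (R ≃* S ⧸ N)

/-- The field with `p ^ (2 * n)` elements. -/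
def Fld (p n : ℕ) [Fact p.Prime] : Type := GaloisField p (2 * n)

noncomputable instance instField (p n : ℕ) [Fact p.Prime] : Field (Fld p n) :=
  inferInstanceAs (Field (GaloisField p (2 * n)))

/-- The nondegenerate Hermitian form `u₀ v̄₂ + u₁ v̄₁ + u₂ v̄₀` on the vectors of length 3 over the
field with `p ^ (2 * n)` elements, where `x̄ = x ^ (p ^ n)`. -/
noncomputable def herm (p n : ℕ) [Fact p.Prime] (u v : Fin 3 → Fld p n) : Fld p n :=
  u 0 * v 2 ^ (p ^ n) + u 1 * v 1 ^ (p ^ n) + u 2 * v 0 ^ (p ^ n)

/-- The matrix `A` of determinant 1 preserves the Hermitian form `herm`. -/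
def Preserves (p n : ℕ) [Fact p.Prime] (A : Matrix.SpecialLinearGroup (Fin 3) (Fld p n)) : Prop :=
  ∀ u v : Fin 3 → Fld p n, herm p n (A.1.mulVec u) (A.1.mulVec v) = herm p n u v

theorem preserves_one (p n : ℕ) [Fact p.Prime] : Preserves p n 1 := by
  intro u v
  simp

theorem preserves_mul (p n : ℕ) [Fact p.Prime]
    {A B : Matrix.SpecialLinearGroup (Fin 3) (Fld p n)}
    (hA : Preserves p n A) (hB : Preserves p n B) : Preserves p n (A * B) := by
  intro u v
  rw [Matrix.SpecialLinearGroup.coe_mul, ← Matrix.mulVec_mulVec, ← Matrix.mulVec_mulVec, hA, hB]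

theorem preserves_inv (p n : ℕ) [Fact p.Prime]
    {A : Matrix.SpecialLinearGroup (Fin 3) (Fld p n)}
    (hA : Preserves p n A) : Preserves p n A⁻¹ := by
  intro u v
  have h : ∀ w : Fin 3 → Fld p n, A.1.mulVec ((A⁻¹).1.mulVec w) = w := by
    intro w
    rw [Matrix.mulVec_mulVec, ← Matrix.SpecialLinearGroup.coe_mul, mul_inv_cancel,
      Matrix.SpecialLinearGroup.coe_one, Matrix.one_mulVec]
  rw [← hA, h, h]

/-- The special unitary group of degree 3 over the field with `p ^ (2 * n)` elements: the matrices
of determinant 1 which preserve the Hermitian form `herm`. -/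
def SU (p n : ℕ) [Fact p.Prime] : Subgroup (Matrix.SpecialLinearGroup (Fin 3) (Fld p n)) where
  carrier := {A | Preserves p n A}
  one_mem' := preserves_one p n
  mul_mem' := preserves_mul p n
  inv_mem' := preserves_inv p n

/-- The type of the elements of `SU p n`, as a group. -/
def SUType (p n : ℕ) [Fact p.Prime] : Type := SU p n

noncomputable instance instGroupSU (p n : ℕ) [Fact p.Prime] : Group (SUType p n) :=
  Subgroup.toGroup (SU p n)

/-- The projective special unitary group `PSU(3, p ^ (2 * n))`: the special unitary group modulo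
its centre. -/
def PSU (p n : ℕ) [Fact p.Prime] : Type := SUType p n ⧸ Subgroup.center (SUType p n)

noncomputable instance instGroup (p n : ℕ) [Fact p.Prime] : Group (PSU p n) :=
  QuotientGroup.Quotient.group (Subgroup.center (SUType p n))

end Pool.Agent.Helper6.BKU
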