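import Pool.Agent.Helper6.BKU.Sylow
import Pool.Agent.Helper6.BKU.NoImage

set_option autoImplicit false

/-!
MP_e00c87_al: assembly. The group of order 11664, the formation of groups with nilpotent
commutator subgroup and the Sylow 3-subgroups of `PSU 3 n`.
-/

namespace Pool.Agent.Helper6.BKU

open Pool.Agent.Helper3.NilDer Pool.Agent.Helper3.GrpG Pool.Agent.Helper3.GrpG.G

theorem formation : IsSaturatedFormation (fun H _ _ => ND H) where
  iso := by
    rintro H K _ _ _ _ ⟨e⟩ h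
    exact nd_of_surjective e.toMonoidHom e.surjective h
  quotient := by
    intro H _ _ N _ h
    exact nd_of_surjective (QuotientGroup.mk' N) (QuotientGroup.mk'_surjective N) h
  inter := by
    intro H _ _ M N _ _ hM hN
    let f₁ : H ⧸ (M ⊓ N) →* H ⧸ M :=
      QuotientGroup.map (M ⊓ N) M (MonoidHom.id H) (by
        intro x hx
        exact hx.1)
    let f₂ : H ⧸ (M ⊓ N) →* H ⧸ N :=
      QuotientGroup.map (M ⊓ N) N (MonoidHom.id H) (by
        intro x hx
        exact hx.2)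
    have hinj : Function.Injective (f₁.prod f₂) := by
      rw [injective_iff_map_eq_one]
      intro a
      induction a using QuotientGroup.induction_on with
      | H x =>
        intro hx
        have h1 : f₁ (x : H ⧸ (M ⊓ N)) = 1 := congrArg Prod.fst hx
        have h2 : f₂ (x : H ⧸ (M ⊓ N)) = 1 := congrArg Prod.snd hx
        have h1' : (QuotientGroup.mk x : H ⧸ M) = 1 := h1
        have h2' : (QuotientGroup.mk x : H ⧸ N) = 1 := h2
        rw [QuotientGroup.eq_one_iff] at h1' h2' ⊢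
        exact ⟨h1', h2'⟩
    have h := nd_subdirect f₁ f₂ hM hN
    exact nd_of_surjective (MonoidHom.ofInjective hinj).symm.toMonoidHom
      (MonoidHom.ofInjective hinj).symm.surjective h
  saturated := by
    intro H _ _ h
    refine nd_saturated (QuotientGroup.mk' (frattini H)) (QuotientGroup.mk'_surjective _) ?_ h
    intro M hM
    rw [QuotientGroup.ker_mk']
    exact frattini_le_coatom hM

theorem card_G : Nat.card G = 11664 := by
  let e : G ≃ V × W × M16 :=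
    { toFun := fun g => (g.v, g.w, g.h)
      invFun := fun t => ⟨t.1, t.2.1, t.2.2⟩
      left_inv := fun _ => rfl
      right_inv := fun _ => rfl }
  have hV : Nat.card V = 81 := by
    change Nat.card ((ZMod 3 × ZMod 3) × (ZMod 3 × ZMod 3)) = 81
    rw [Nat.card_prod, Nat.card_prod, Nat.card_zmod]
  have hW : Nat.card W = 9 := by
    change Nat.card (ZMod 3 × ZMod 3) = 9
    rw [Nat.card_prod, Nat.card_zmod]
  have h1 : Nat.card (V × W × M16) = Nat.card V * Nat.card (W × M16) := Nat.card_prod V (W × M16)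
  have h2 : Nat.card (W × M16) = Nat.card W * Nat.card M16 := Nat.card_prod W M16
  calc Nat.card G = Nat.card (V × W × M16) := Nat.card_congr e
    _ = Nat.card V * (Nat.card W * Nat.card M16) := by rw [h1, h2]
    _ = 11664 := by rw [hV, hW, M16.card]

theorem minimal : IsMinimalNon (fun H _ _ => ND H) G :=
  ⟨G.not_nd, fun K hK => G.nd_proper K hK⟩

theorem residual' : IsResidual (fun H _ _ => ND H) (G := G) pr.ker := by
  refine ⟨⟨inferInstance, ?_⟩, ?_⟩
  · exact nd_of_surjective (QuotientGroup.quotientKerEquivOfSurjective pr pr_surjective).symm.toMonoidHom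
      (QuotientGroup.quotientKerEquivOfSurjective pr pr_surjective).symm.surjective nd_M16
  · rintro N ⟨hN, h⟩
    have := ker_le_of_nd (QuotientGroup.mk' N) h
    rwa [QuotientGroup.ker_mk'] at this

open Classical in
theorem no_surj (n : ℕ) (hn : 0 < n) (ψ : US n →* (pr.ker : Subgroup G))
    (hψ : Function.Surjective ψ) : False := by
  have hmem : ∀ x : Fld 3 n × Fld 3 n,
      x.2 + x.2 ^ (3 ^ n) + x.1 ^ (3 ^ n + 1) = 0 → um n x.1 x.2 ∈ SU 3 n :=
    fun x hx => um_mem n hn x.1 x.2 hx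
  let φ : Fld 3 n × Fld 3 n → G := fun x =>
    if hx : x.2 + x.2 ^ (3 ^ n) + x.1 ^ (3 ^ n + 1) = 0 then
      (ψ ⟨⟨um n x.1 x.2, hmem x hx⟩, um_mem_US n x.1 x.2 (hmem x hx)⟩ : G) else 1
  have hφ : ∀ (x : Fld 3 n × Fld 3 n)
      (hx : x.2 + x.2 ^ (3 ^ n) + x.1 ^ (3 ^ n + 1) = 0),
      φ x = (ψ ⟨⟨um n x.1 x.2, hmem x hx⟩, um_mem_US n x.1 x.2 (hmem x hx)⟩ : G) := by
    intro x hx
    exact dif_pos hx
  have p1 : ∀ x : Fld 3 n × Fld 3 n, x.2 + x.2 ^ (3 ^ n) + x.1 ^ (3 ^ n + 1) = 0 →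
      φ x ∈ pr.ker := by
    intro x hx
    rw [hφ x hx]
    exact (ψ _).2
  have p2 : ∀ g ∈ pr.ker, ∃ x : Fld 3 n × Fld 3 n,
      x.2 + x.2 ^ (3 ^ n) + x.1 ^ (3 ^ n + 1) = 0 ∧ φ x = g := by
    intro g hg
    obtain ⟨u, hu⟩ := hψ ⟨g, hg⟩
    obtain ⟨a, b, hab, h⟩ := mem_US n hn u.1 u.2
    refine ⟨(a, b), hab, ?_⟩
    rw [hφ (a, b) hab]
    have hu' : u = ⟨⟨um n a b, hmem (a, b) hab⟩, um_mem_US n a b (hmem (a, b) hab)⟩ := by
      apply Subtype.ext
      apply Subtype.ext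
      exact h
    rw [← hu', hu]
  have p3 : ∀ x y : Fld 3 n × Fld 3 n, x.2 + x.2 ^ (3 ^ n) + x.1 ^ (3 ^ n + 1) = 0 →
      y.2 + y.2 ^ (3 ^ n) + y.1 ^ (3 ^ n + 1) = 0 →
      φ (x.1 + y.1, x.2 + y.2 - x.1 * y.1 ^ (3 ^ n)) = φ x * φ y := by
    intro x y hx hy
    have key : (um n (x.1 + y.1) (x.2 + y.2 - x.1 * y.1 ^ (3 ^ n))) =
        um n x.1 x.2 * um n y.1 y.2 := (um_mul n x.1 x.2 y.1 y.2).symm
    have hm : (um n (x.1 + y.1) (x.2 + y.2 - x.1 * y.1 ^ (3 ^ n))) ∈ SU 3 n := by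
      rw [key]
      exact (SU 3 n).mul_mem (hmem x hx) (hmem y hy)
    have hxy : (x.2 + y.2 - x.1 * y.1 ^ (3 ^ n)) + (x.2 + y.2 - x.1 * y.1 ^ (3 ^ n)) ^ (3 ^ n) +
        (x.1 + y.1) ^ (3 ^ n + 1) = 0 := by
      rw [bar_sub, bar_add, mul_pow, bar_bar n hn, pow_succ (x.1 + y.1), bar_add]
      rw [pow_succ] at hx hy
      linear_combination hx + hy
    rw [hφ x hx, hφ y hy, hφ (x.1 + y.1, x.2 + y.2 - x.1 * y.1 ^ (3 ^ n)) hxy]
    have e : (⟨⟨um n (x.1 + y.1) (x.2 + y.2 - x.1 * y.1 ^ (3 ^ n)), hm⟩,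
        um_mem_US n _ _ hm⟩ : US n) =
        ⟨⟨um n x.1 x.2, hmem x hx⟩, um_mem_US n x.1 x.2 (hmem x hx)⟩ *
        ⟨⟨um n y.1 y.2, hmem y hy⟩, um_mem_US n y.1 y.2 (hmem y hy)⟩ := by
      apply Subtype.ext
      apply Subtype.ext
      exact key
    rw [e, map_mul]
    rfl
  exact NoImage.no_image n hn φ p1 p2 p3

theorem no_quotient (n : ℕ) (hn : 0 < n) (S : Sylow 3 (PSU 3 n)) :
    ¬ IsQuotientOf (pr.ker : Subgroup G) S := by
  rintro ⟨N, hN, ⟨e⟩⟩
  obtain ⟨f, hf⟩ := exists_surj n hn S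
  exact no_surj n hn ((e.symm.toMonoidHom.comp (QuotientGroup.mk' N)).comp f)
    ((e.symm.surjective.comp (QuotientGroup.mk'_surjective N)).comp hf)

theorem main :
    ∃ (F : ∀ (H : Type) [Group H] [Finite H], Prop) (G : Type) (_ : Group G) (_ : Finite G)
      (R : Subgroup G),
      IsSaturatedFormation F ∧
      (∀ (H : Type) [Group H] [Finite H], F H ↔ Group.IsNilpotent (commutator H)) ∧
      Nat.card G = 11664 ∧ Group.IsSolvable G ∧ IsMinimalNon F G ∧ IsResidual F R ∧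
      (∃ P : Sylow 3 G, (P : Subgroup G) = R) ∧
      ∀ n : ℕ, 0 < n → ∀ S : Sylow 3 (PSU 3 n), ¬ IsQuotientOf R S :=
  ⟨fun H _ _ => ND H, G, inferInstance, inferInstance, pr.ker, formation, fun _ _ _ => Iff.rfl,
    card_G, G.solvable, minimal, residual', G.sylow, no_quotient⟩

end Pool.Agent.Helper6.BKU
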