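import Pool.Agent.Helper6.BKU.Defs

set_option autoImplicit false

/-!
MP_e00c87_al: the Sylow 3-subgroup of `SU 3 n` is the stabiliser of an isotropic vector and
consists of the unitriangular matrices.
-/

namespace Pool.Agent.Helper6.BKU

/-- vectors (a copy of the function type, to avoid other actions) -/
def Vec (n : ℕ) : Type := Fin 3 → Fld 3 n

instance (n : ℕ) : Finite (Fld 3 n) := inferInstanceAs (Finite (GaloisField 3 (2 * n)))

instance (n : ℕ) : CharP (Fld 3 n) 3 := inferInstanceAs (CharP (GaloisField 3 (2 * n)) 3)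

instance (n : ℕ) : Finite (Vec n) := inferInstanceAs (Finite (Fin 3 → Fld 3 n))

instance (n : ℕ) : Finite (SU 3 n) := by
  have h : Function.Injective
      (fun A : SU 3 n => fun i j : Fin 3 => (A.1.1 : Matrix (Fin 3) (Fin 3) (Fld 3 n)) i j) := by
    intro A B h
    apply Subtype.ext
    apply Subtype.ext
    exact h
  exact Finite.of_injective _ h

/-- the action on vectors -/
noncomputable def mv (n : ℕ) (g : SU 3 n) (v : Fin 3 → Fld 3 n) :
    Fin 3 → Fld 3 n := g.1.1.mulVec v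

theorem mv_one (n : ℕ) (v : Fin 3 → Fld 3 n) : mv n 1 v = v :=
  Matrix.one_mulVec v

theorem mv_mul (n : ℕ) (g h : SU 3 n) (v : Fin 3 → Fld 3 n) :
    mv n (g * h) v = mv n g (mv n h v) :=
  (Matrix.mulVec_mulVec v g.1.1 h.1.1).symm

noncomputable instance (n : ℕ) : MulAction (SU 3 n) (Vec n) where
  smul g v := mv n g v
  one_smul v := mv_one n v
  mul_smul g h v := mv_mul n g h v

theorem smul_def (n : ℕ) (g : SU 3 n) (v : Vec n) : g • v = mv n g v := rfl

/-- first basis vector -/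
noncomputable def e0 (n : ℕ) : Fin 3 → Fld 3 n := fun i => if i = 0 then 1 else 0

/-- the stabiliser of the first basis vector -/
noncomputable def US (n : ℕ) : Subgroup (SU 3 n) := MulAction.stabilizer (SU 3 n) (e0 n : Vec n)

section
variable (n : ℕ) (hn : 0 < n)
include hn

theorem card_K : Nat.card (Fld 3 n) = 3 ^ (2 * n) :=
  GaloisField.card 3 (2 * n) (by omega)

theorem bar_bar (a : Fld 3 n) : (a ^ (3 ^ n)) ^ (3 ^ n) = a := by
  have : Fintype (Fld 3 n) := Fintype.ofFinite _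
  rw [← pow_mul, ← pow_add, ← two_mul, ← card_K n hn, Nat.card_eq_fintype_card]
  exact FiniteField.pow_card a

end

theorem bar_add (n : ℕ) (a b : Fld 3 n) :
    (a + b) ^ (3 ^ n) = a ^ (3 ^ n) + b ^ (3 ^ n) :=
  add_pow_char_pow a b 3 n

theorem bar_sub (n : ℕ) (a b : Fld 3 n) :
    (a - b) ^ (3 ^ n) = a ^ (3 ^ n) - b ^ (3 ^ n) :=
  sub_pow_char_pow a b n

theorem bar_zero (n : ℕ) : (0 : Fld 3 n) ^ (3 ^ n) = 0 :=
  zero_pow (by positivity)

theorem bar_neg (n : ℕ) (a : Fld 3 n) : (-a) ^ (3 ^ n) = -a ^ (3 ^ n) := by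
  have := bar_sub n 0 a
  rwa [zero_sub, bar_zero, zero_sub] at this

theorem three_K (n : ℕ) : (3 : Fld 3 n) = 0 := by
  have hchar : CharP (Fld 3 n) 3 := inferInstance
  have := CharP.cast_eq_zero (Fld 3 n) 3
  exact_mod_cast this

/-- the unitriangular matrices -/
noncomputable def um (n : ℕ) (a b : Fld 3 n) :
    Matrix.SpecialLinearGroup (Fin 3) (Fld 3 n) :=
  ⟨!![1, a, b; 0, 1, -a ^ (3 ^ n); 0, 0, 1], by simp [Matrix.det_fin_three]⟩

theorem um_mulVec (n : ℕ) (a b : Fld 3 n) (v : Fin 3 → Fld 3 n) :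
    (um n a b).1.mulVec v = ![v 0 + a * v 1 + b * v 2, v 1 - a ^ (3 ^ n) * v 2, v 2] := by
  ext i
  fin_cases i <;>
    simp [um, Matrix.mulVec, dotProduct, Fin.sum_univ_three, sub_eq_add_neg]

theorem um_mem (n : ℕ) (hn : 0 < n) (a b : Fld 3 n)
    (h : b + b ^ (3 ^ n) + a ^ (3 ^ n + 1) = 0) : um n a b ∈ SU 3 n := by
  intro u v
  rw [um_mulVec, um_mulVec]
  simp only [herm, Matrix.cons_val_zero, Matrix.cons_val_one, Matrix.cons_val]
  rw [bar_add, bar_add, bar_sub, mul_pow, mul_pow, mul_pow, bar_bar n hn]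
  rw [pow_succ] at h
  linear_combination (u 2 * v 2 ^ (3 ^ n)) * h

/-- the members of the stabiliser are unitriangular -/
theorem mem_US (n : ℕ) (hn : 0 < n) (g : SU 3 n) (hg : g ∈ US n) :
    ∃ a b : Fld 3 n, b + b ^ (3 ^ n) + a ^ (3 ^ n + 1) = 0 ∧ g.1 = um n a b := by
  obtain ⟨⟨A, hdet⟩, hA⟩ := g
  have h0 : A.mulVec (fun i => if i = 0 then 1 else 0) = (fun i => if i = 0 then 1 else 0) := hg
  have hA' : ∀ u v : Fin 3 → Fld 3 n,
    herm 3 n (A.mulVec u) (A.mulVec v) = herm 3 n u v := hA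
  have c0 : A 0 0 = 1 := by
    have := congrFun h0 0
    simpa [Matrix.mulVec, dotProduct, Fin.sum_univ_three] using this
  have c1 : A 1 0 = 0 := by
    have := congrFun h0 1
    simpa [Matrix.mulVec, dotProduct, Fin.sum_univ_three] using this
  have c2 : A 2 0 = 0 := by
    have := congrFun h0 2
    simpa [Matrix.mulVec, dotProduct, Fin.sum_univ_three] using this
  -- last row
  have hq0 : 3 ^ n ≠ 0 := by positivity
  have hz : (0 : Fld 3 n) ^ (3 ^ n) = 0 := bar_zero n
  have r1 : A 2 1 = 0 := by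
    have := hA' ![0, 1, 0] ![1, 0, 0]
    simp [herm, Matrix.mulVec, dotProduct, Fin.sum_univ_three, c0, c1, c2, hz] at this
    exact this
  have r2 : A 2 2 = 1 := by
    have := hA' ![0, 0, 1] ![1, 0, 0]
    simp [herm, Matrix.mulVec, dotProduct, Fin.sum_univ_three, c0, c1, c2, hz] at this
    exact this
  have d1 : A 1 1 = 1 := by
    rw [Matrix.det_fin_three] at hdet
    rw [c0, c1, c2, r1, r2] at hdet
    simpa using hdet
  have e1 : A 1 2 = -(A 0 1) ^ (3 ^ n) := by
    have := hA' ![0, 0, 1] ![0, 1, 0]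
    simp [herm, Matrix.mulVec, dotProduct, Fin.sum_univ_three, r1, r2, d1, hz] at this
    linear_combination this
  have e2 : A 0 2 + A 0 2 ^ (3 ^ n) + A 0 1 ^ (3 ^ n + 1) = 0 := by
    have := hA' ![0, 0, 1] ![0, 0, 1]
    simp [herm, Matrix.mulVec, dotProduct, Fin.sum_univ_three, r2, e1, hz] at this
    rw [bar_neg, bar_bar n hn] at this
    rw [pow_succ]
    linear_combination this
  refine ⟨A 0 1, A 0 2, e2, ?_⟩
  apply Subtype.ext
  ext i j
  fin_cases i <;> fin_cases j <;> simp [um, c0, c1, c2, r1, r2, d1, e1]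

theorem um_mul (n : ℕ) (a b c d : Fld 3 n) :
    um n a b * um n c d = um n (a + c) (b + d - a * c ^ (3 ^ n)) := by
  apply Subtype.ext
  rw [Matrix.SpecialLinearGroup.coe_mul]
  ext i j
  fin_cases i <;> fin_cases j <;>
    simp [um, Matrix.mul_apply, Fin.sum_univ_three, bar_add] <;> ring

theorem um_zero (n : ℕ) : um n 0 0 = 1 := by
  apply Subtype.ext
  rw [Matrix.SpecialLinearGroup.coe_one]
  ext i j
  fin_cases i <;> fin_cases j <;> simp [um]

theorem um_mem_US (n : ℕ) (a b : Fld 3 n) (h : um n a b ∈ SU 3 n) :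
    (⟨um n a b, h⟩ : SU 3 n) ∈ US n := by
  change (um n a b).1.mulVec (e0 n) = e0 n
  refine (um_mulVec n a b (e0 n)).trans ?_
  ext i
  fin_cases i <;> simp [e0]

theorem isPGroup_US (n : ℕ) (hn : 0 < n) : IsPGroup 3 (US n) := by
  rintro ⟨g, hg⟩
  refine ⟨1, ?_⟩
  apply Subtype.ext
  apply Subtype.ext
  obtain ⟨a, b, hab, h⟩ := mem_US n hn g hg
  change g.1 ^ 3 = 1
  rw [h, pow_succ, pow_two, um_mul n, um_mul n, ← um_zero n]
  have h3 := three_K n
  congr 1
  · linear_combination a * h3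
  · rw [pow_succ] at hab
    linear_combination (b - a * a ^ 3 ^ n) * h3

/-- the vectors fixed by the stabiliser -/
theorem fixed_US (n : ℕ) (hn : 0 < n) (v : Vec n) (hv : ∀ g ∈ US n, g • v = v) :
    v = fun i => if i = 0 then v 0 else 0 := by
  have hone : (1 : Fld 3 n) + 1 ^ (3 ^ n) + 1 ^ (3 ^ n + 1) = 0 := by
    rw [one_pow, one_pow]
    linear_combination three_K n
  have h := hv ⟨um n 1 1, um_mem n hn 1 1 hone⟩ (um_mem_US n 1 1 _)
  have h' : ![v 0 + 1 * v 1 + 1 * v 2, v 1 - 1 ^ (3 ^ n) * v 2, v 2] = v :=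
    (um_mulVec n 1 1 v).symm.trans h
  have h1 := congrFun h' 1
  have h0 := congrFun h' 0
  simp only [Matrix.cons_val_one, Matrix.cons_val_zero, one_pow, one_mul] at h1 h0
  have v2 : v 2 = 0 := by linear_combination -h1
  have v1 : v 1 = 0 := by linear_combination h0 - v2
  funext i
  fin_cases i <;> simp [v1, v2]

/-- the stabiliser is a maximal 3-subgroup -/
theorem max_US (n : ℕ) (hn : 0 < n) (Q : Subgroup (SU 3 n)) (hQ : IsPGroup 3 Q) (hle : US n ≤ Q) :
    Q = US n := by
  refine le_antisymm ?_ hle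
  have hcard : 3 ∣ Nat.card (Vec n) := by
    have : Nat.card (Vec n) = (3 ^ (2 * n)) ^ 3 := by
      change Nat.card (Fin 3 → Fld 3 n) = _
      rw [Nat.card_fun, card_K n hn]
      simp
    rw [this, ← pow_mul]
    exact dvd_pow_self 3 (by omega)
  let z : Vec n := fun _ => 0
  have hz : z ∈ MulAction.fixedPoints Q (Vec n) := by
    intro g
    change (g.1).1.1.mulVec (0 : Fin 3 → Fld 3 n) = 0
    exact Matrix.mulVec_zero _
  obtain ⟨v, hv, hvz⟩ := hQ.exists_fixed_point_of_prime_dvd_card_of_fixed_point (Vec n) hcard hz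
  have hfix : ∀ g ∈ Q, g • v = v := fun g hg => hv ⟨g, hg⟩
  have hv0 := fixed_US n hn v (fun g hg => hfix g (hle hg))
  have hne : v 0 ≠ 0 := by
    intro h
    apply hvz
    rw [hv0, h]
    funext i
    simp [z]
  intro g hg
  change mv n g (e0 n) = e0 n
  have h1 : mv n g v = v := hfix g hg
  have he : v = v 0 • e0 n := by
    refine hv0.trans ?_
    funext i
    simp [e0]
  have h2 : mv n g (v 0 • e0 n) = v 0 • e0 n := by
    rw [← he]; exact h1
  have h3 : mv n g (v 0 • e0 n) = v 0 • mv n g (e0 n) := Matrix.mulVec_smul _ _ _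
  rw [h3] at h2
  exact smul_right_injective _ hne h2

/-- the Sylow 3-subgroup of unitriangular matrices -/
noncomputable def syl (n : ℕ) (hn : 0 < n) : Sylow 3 (SU 3 n) where
  toSubgroup := US n
  isPGroup' := isPGroup_US n hn
  is_maximal' := fun {Q} hQ hle => max_US n hn Q hQ hle

instance (n : ℕ) : Finite (SUType 3 n) := inferInstanceAs (Finite (SU 3 n))

/-- the identity, as an isomorphism -/
noncomputable def toSUType (n : ℕ) : SU 3 n ≃* SUType 3 n := MulEquiv.refl (SU 3 n)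

/-- every Sylow 3-subgroup of `PSU 3 n` is an image of the group of unitriangular matrices -/
theorem exists_surj (n : ℕ) (hn : 0 < n) (S : Sylow 3 (PSU 3 n)) :
    ∃ f : US n →* S, Function.Surjective f := by
  let m : SU 3 n →* PSU 3 n :=
    (QuotientGroup.mk' (Subgroup.center (SUType 3 n))).comp (toSUType n).toMonoidHom
  have hs : Function.Surjective m :=
    (QuotientGroup.mk'_surjective (Subgroup.center (SUType 3 n))).comp (toSUType n).surjective
  have : Finite (PSU 3 n) := Finite.of_surjective m hs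
  let T : Sylow 3 (PSU 3 n) := (syl n hn).mapSurjective hs
  let e : T ≃* S := Sylow.equiv T S
  let f : US n →* T := (m.comp (US n).subtype).codRestrict T.toSubgroup
    (fun x => Subgroup.mem_map_of_mem m x.2)
  refine ⟨e.toMonoidHom.comp f, ?_⟩
  refine e.surjective.comp ?_
  rintro ⟨t, ht⟩
  obtain ⟨x, hx, rfl⟩ := ht
  exact ⟨⟨x, hx⟩, rfl⟩

end Pool.Agent.Helper6.BKU
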